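import Mathlib

/-! Sets of words over `k` letters without `k` words that form a generalized line: a counting
principle, with applications to sublattices of `[k]^n` and to sets defined along a forest. -/

namespace Pool.Agent.R181.LAT

variable {n k : ℕ}

/-- The coordinates which are not constant on `A`. -/
def J (A : Finset (Fin n → Fin k)) : Finset (Fin n) :=
  Finset.univ.filter (fun i => ∃ x ∈ A, ∃ y ∈ A, x i ≠ y i)

theorem mem_J {A : Finset (Fin n → Fin k)} {i : Fin n} :
    i ∈ J A ↔ ∃ x ∈ A, ∃ y ∈ A, x i ≠ y i := by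
  simp [J]

theorem eq_of_not_mem_J {A : Finset (Fin n → Fin k)} {i : Fin n} (hi : i ∉ J A)
    {x y : Fin n → Fin k} (hx : x ∈ A) (hy : y ∈ A) : x i = y i := by
  by_contra h
  exact hi (mem_J.2 ⟨x, hx, y, hy, h⟩)

/-- `A` contains `k` words which are pairwise different in all coordinates of a nonempty set `I`
and agree outside of `I`. -/
def HasMatching (A : Finset (Fin n → Fin k)) : Prop :=
  ∃ (I : Finset (Fin n)) (y : Fin k → Fin n → Fin k), I.Nonempty ∧ (∀ a, y a ∈ A) ∧
    (∀ i ∈ I, Function.Injective (fun a => y a i)) ∧ ∀ i ∉ I, ∀ a b, y a i = y b i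

theorem HasMatching.mono {A B : Finset (Fin n → Fin k)} (hAB : A ⊆ B) (h : HasMatching A) :
    HasMatching B := by
  obtain ⟨I, y, hI, hy, h1, h2⟩ := h
  exact ⟨I, y, hI, fun a => hAB (hy a), h1, h2⟩

theorem J_filter_subset (A : Finset (Fin n → Fin k)) (i : Fin n) (a : Fin k) :
    J (A.filter (fun x => x i = a)) ⊆ (J A).erase i := by
  intro j hj
  obtain ⟨x, hx, y, hy, hne⟩ := mem_J.1 hj
  rw [Finset.mem_filter] at hx hy
  rw [Finset.mem_erase]
  refine ⟨?_, mem_J.2 ⟨x, hx.1, y, hy.1, hne⟩⟩
  rintro rfl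
  exact hne (hx.2.trans hy.2.symm)

/-- The counting principle: if in a class of sets, closed under fixing a coordinate, every set
which is not a point is covered by `k - 1` pairs (coordinate, letter), where the coordinates are
not constant, then the sets have at most `(k - 1) ^ n` elements. -/
theorem principle (hk : 2 ≤ k) (S : Finset (Fin n → Fin k) → Prop)
    (hfix : ∀ A, S A → ∀ i a, S (A.filter (fun x => x i = a)))
    (hkey : ∀ A, S A → (J A).Nonempty →
      ∃ T : Finset (Fin n × Fin k), T.card ≤ k - 1 ∧ (∀ t ∈ T, t.1 ∈ J A) ∧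
        ∀ x ∈ A, ∃ t ∈ T, x t.1 = t.2)
    (A : Finset (Fin n → Fin k)) (hA : S A) :
    A.card ≤ (k - 1) ^ (J A).card := by
  induction h : (J A).card using Nat.strong_induction_on generalizing A with
  | _ m ih =>
    subst h
    by_cases hJ : (J A).Nonempty
    · obtain ⟨T, hT, hTJ, hcov⟩ := hkey A hA hJ
      have hpos : 1 ≤ (J A).card := Finset.card_pos.2 hJ
      have hfib : ∀ t ∈ T, (A.filter (fun x => x t.1 = t.2)).card ≤
          (k - 1) ^ ((J A).card - 1) := by
        intro t ht
        have hsub := J_filter_subset A t.1 t.2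
        have hcard : (J (A.filter (fun x => x t.1 = t.2))).card ≤ (J A).card - 1 := by
          refine (Finset.card_le_card hsub).trans ?_
          rw [Finset.card_erase_of_mem (hTJ t ht)]
        have := ih _ (by omega) (A.filter (fun x => x t.1 = t.2)) (hfix A hA t.1 t.2) rfl
        exact this.trans (Nat.pow_le_pow_right (by omega) hcard)
      have hAT : A ⊆ T.biUnion (fun t => A.filter (fun x => x t.1 = t.2)) := by
        intro x hx
        obtain ⟨t, ht, hxt⟩ := hcov x hx
        rw [Finset.mem_biUnion]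
        exact ⟨t, ht, Finset.mem_filter.2 ⟨hx, hxt⟩⟩
      calc A.card ≤ (T.biUnion (fun t => A.filter (fun x => x t.1 = t.2))).card :=
            Finset.card_le_card hAT
        _ ≤ ∑ t ∈ T, (A.filter (fun x => x t.1 = t.2)).card := Finset.card_biUnion_le
        _ ≤ ∑ _t ∈ T, (k - 1) ^ ((J A).card - 1) := Finset.sum_le_sum hfib
        _ = T.card * (k - 1) ^ ((J A).card - 1) := by rw [Finset.sum_const, smul_eq_mul]
        _ ≤ (k - 1) * (k - 1) ^ ((J A).card - 1) := Nat.mul_le_mul_right _ hT
        _ = (k - 1) ^ (J A).card := by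
            rw [← pow_succ']
            congr 1
            omega
    · rw [Finset.not_nonempty_iff_eq_empty] at hJ
      rw [hJ, Finset.card_empty, pow_zero]
      rw [Finset.card_le_one]
      intro x hx y hy
      ext i
      have := eq_of_not_mem_J (A := A) (i := i) (by simp [hJ]) hx hy
      rw [this]

theorem J_card_le (A : Finset (Fin n → Fin k)) : (J A).card ≤ n := by
  simpa using Finset.card_le_univ (J A)

theorem principle' (hk : 2 ≤ k) (S : Finset (Fin n → Fin k) → Prop)
    (hfix : ∀ A, S A → ∀ i a, S (A.filter (fun x => x i = a)))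
    (hkey : ∀ A, S A → (J A).Nonempty →
      ∃ T : Finset (Fin n × Fin k), T.card ≤ k - 1 ∧ (∀ t ∈ T, t.1 ∈ J A) ∧
        ∀ x ∈ A, ∃ t ∈ T, x t.1 = t.2)
    (A : Finset (Fin n → Fin k)) (hA : S A) :
    A.card ≤ (k - 1) ^ n :=
  (principle hk S hfix hkey A hA).trans (Nat.pow_le_pow_right (by omega) (J_card_le A))

/-- A value which is not attained in a non-constant coordinate gives a cover. -/
theorem cover_of_missing {A : Finset (Fin n → Fin k)} {i : Fin n} (hi : i ∈ J A) (a : Fin k)
    (ha : ∀ x ∈ A, x i ≠ a) :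
    ∃ T : Finset (Fin n × Fin k), T.card ≤ k - 1 ∧ (∀ t ∈ T, t.1 ∈ J A) ∧
        ∀ x ∈ A, ∃ t ∈ T, x t.1 = t.2 := by
  refine ⟨(Finset.univ.erase a).image (fun b => (i, b)), ?_, ?_, ?_⟩
  · refine Finset.card_image_le.trans ?_
    rw [Finset.card_erase_of_mem (Finset.mem_univ _)]
    simp
  · intro t ht
    rw [Finset.mem_image] at ht
    obtain ⟨b, -, rfl⟩ := ht
    exact hi
  · intro x hx
    exact ⟨(i, x i), Finset.mem_image.2 ⟨x i, by simp [ha x hx], rfl⟩, rfl⟩

end Pool.Agent.R181.LAT
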