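import Pool.Agent.R181.LAT.Core

/-! Sets which are defined by conditions on the edges of a forest. -/

namespace Pool.Agent.R181.LAT

variable {n k : ℕ}

/-- `A` is defined by conditions on the single coordinates and on the pairs `{i, par i}`: a word
belongs to `A` as soon as its letters at `i` and its pairs of letters at `i` and `par i` occur in
words of `A`. -/
def ForestDefined (par : Fin n → Option (Fin n)) (A : Finset (Fin n → Fin k)) : Prop :=
  ∀ y : Fin n → Fin k, (∀ i, ∃ x ∈ A, x i = y i) →
    (∀ i j, par i = some j → ∃ x ∈ A, x i = y i ∧ x j = y j) → y ∈ A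

theorem ForestDefined.filter {par : Fin n → Option (Fin n)} {A : Finset (Fin n → Fin k)}
    (h : ForestDefined par A) (l : Fin n) (a : Fin k) :
    ForestDefined par (A.filter (fun x => x l = a)) := by
  intro y h1 h2
  rw [Finset.mem_filter]
  constructor
  · apply h
    · intro i
      obtain ⟨x, hx, hxi⟩ := h1 i
      exact ⟨x, (Finset.mem_filter.1 hx).1, hxi⟩
    · intro i j hij
      obtain ⟨x, hx, hxi⟩ := h2 i j hij
      exact ⟨x, (Finset.mem_filter.1 hx).1, hxi⟩
  · obtain ⟨x, hx, hxl⟩ := h1 l
    rw [← hxl]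
    exact (Finset.mem_filter.1 hx).2

theorem forest_key {par : Fin n → Option (Fin n)} (hpar : ∀ i j, par i = some j → j < i)
    {A : Finset (Fin n → Fin k)} (h : ForestDefined par A) (hm : ¬ HasMatching A)
    (hJ : (J A).Nonempty) :
    ∃ T : Finset (Fin n × Fin k), T.card ≤ k - 1 ∧ (∀ t ∈ T, t.1 ∈ J A) ∧
        ∀ x ∈ A, ∃ t ∈ T, x t.1 = t.2 := by
  classical
  by_cases hfull : ∀ i ∈ J A, ∀ a : Fin k, ∃ x ∈ A, x i = a
  swap
  · push Not at hfull
    obtain ⟨i, hi, a, ha⟩ := hfull
    exact cover_of_missing hi a ha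
  -- the relations on the edges
  let t : Fin n → Fin n → Fin k → Finset (Fin k) := fun i j a =>
    Finset.univ.filter (fun b => ∃ x ∈ A, x j = a ∧ x i = b)
  by_cases hhall : ∀ i ∈ J A, ∀ j ∈ J A, par i = some j →
      ∀ s : Finset (Fin k), s.card ≤ (s.biUnion (t i j)).card
  swap
  · push Not at hhall
    obtain ⟨i, hi, j, hj, -, s, hs⟩ := hhall
    refine ⟨(Finset.univ \ s).image (fun a => (j, a)) ∪
      (s.biUnion (t i j)).image (fun b => (i, b)), ?_, ?_, ?_⟩
    · refine (Finset.card_union_le _ _).trans ?_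
      refine (Nat.add_le_add Finset.card_image_le Finset.card_image_le).trans ?_
      have h1 : (Finset.univ \ s).card = k - s.card := by
        rw [Finset.card_sdiff_of_subset (Finset.subset_univ s)]
        simp
      have h2 : s.card ≤ k := by
        simpa using Finset.card_le_univ s
      omega
    · intro q hq
      simp only [Finset.mem_union, Finset.mem_image] at hq
      rcases hq with ⟨c, -, rfl⟩ | ⟨c, -, rfl⟩
      · exact hj
      · exact hi
    · intro x hx
      by_cases hxs : x j ∈ s
      · refine ⟨(i, x i), ?_, rfl⟩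
        rw [Finset.mem_union]
        right
        rw [Finset.mem_image]
        refine ⟨x i, ?_, rfl⟩
        rw [Finset.mem_biUnion]
        exact ⟨x j, hxs, by simp only [t, Finset.mem_filter, Finset.mem_univ, true_and]
                            exact ⟨x, hx, rfl, rfl⟩⟩
      · refine ⟨(j, x j), ?_, rfl⟩
        rw [Finset.mem_union]
        left
        rw [Finset.mem_image]
        exact ⟨x j, by simp [hxs], rfl⟩
  exfalso
  apply hm
  -- the permutations on the edges
  have hπ : ∀ i : Fin n, ∃ π : Fin k → Fin k, Function.Injective π ∧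
      ∀ j ∈ J A, i ∈ J A → par i = some j → ∀ a, ∃ x ∈ A, x j = a ∧ x i = π a := by
    intro i
    by_cases hi : i ∈ J A ∧ ∃ j ∈ J A, par i = some j
    · obtain ⟨hiJ, j, hj, hij⟩ := hi
      obtain ⟨π, hinj, hπ⟩ := (Finset.all_card_le_biUnion_card_iff_exists_injective (t i j)).1
        (hhall i hiJ j hj hij)
      refine ⟨π, hinj, ?_⟩
      intro j' _ _ hij' a
      have : j' = j := by
        rw [hij] at hij'
        exact (Option.some.inj hij').symm
      subst this
      have := hπ a
      simp only [t, Finset.mem_filter, Finset.mem_univ, true_and] at this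
      exact this
    · refine ⟨id, Function.injective_id, ?_⟩
      intro j hj hiJ hij
      exact absurd ⟨hiJ, j, hj, hij⟩ hi
  choose π hinj hπ using hπ
  obtain ⟨i₀, hi₀⟩ := hJ
  obtain ⟨x₀, hx₀, -⟩ := mem_J.1 hi₀
  -- the words
  let G : Fin k → (i : Fin n) → ((j : Fin n) → j < i → Fin k) → Fin k := fun c i rec =>
    if i ∈ J A then
      (if hh : ∃ j, par i = some j ∧ j ∈ J A ∧ j < i then π i (rec hh.choose hh.choose_spec.2.2)
        else c)
    else x₀ i
  let y : Fin k → Fin n → Fin k := fun c => (wellFounded_lt (α := Fin n)).fix (G c)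
  have hy : ∀ c i, y c i = G c i (fun j _ => y c j) := by
    intro c i
    exact WellFounded.fix_eq _ _ _
  have hy1 : ∀ c i, i ∉ J A → y c i = x₀ i := by
    intro c i hi
    rw [hy]
    simp [G, hi]
  have hy2 : ∀ c i j, i ∈ J A → par i = some j → j ∈ J A → y c i = π i (y c j) := by
    intro c i j hi hij hj
    have hh : ∃ j, par i = some j ∧ j ∈ J A ∧ j < i := ⟨j, hij, hj, hpar i j hij⟩
    have hch : hh.choose = j := by
      exact (Option.some.inj (hij.symm.trans hh.choose_spec.1)).symm
    rw [hy]
    simp only [G, hi, if_true, dif_pos hh, hch]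
  have hy3 : ∀ c i, i ∈ J A → (∀ j, par i = some j → j ∉ J A) → y c i = c := by
    intro c i hi hn
    have hh : ¬ ∃ j, par i = some j ∧ j ∈ J A ∧ j < i := by
      rintro ⟨j, h1, h2, -⟩
      exact hn j h1 h2
    rw [hy]
    simp only [G, hi, if_true, dif_neg hh]
  refine ⟨J A, y, ⟨i₀, hi₀⟩, ?_, ?_, ?_⟩
  · intro c
    apply h
    · intro i
      by_cases hi : i ∈ J A
      · exact hfull i hi _
      · exact ⟨x₀, hx₀, (hy1 c i hi).symm⟩
    · intro i j hij
      by_cases hi : i ∈ J A
      · by_cases hj : j ∈ J A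
        · obtain ⟨x, hx, h1, h2⟩ := hπ i j hj hi hij (y c j)
          exact ⟨x, hx, by rw [h2, hy2 c i j hi hij hj], h1⟩
        · obtain ⟨x, hx, h1⟩ := hfull i hi (y c i)
          exact ⟨x, hx, h1, by rw [hy1 c j hj, eq_of_not_mem_J hj hx hx₀]⟩
      · by_cases hj : j ∈ J A
        · obtain ⟨x, hx, h1⟩ := hfull j hj (y c j)
          exact ⟨x, hx, by rw [hy1 c i hi, eq_of_not_mem_J hi hx hx₀], h1⟩
        · exact ⟨x₀, hx₀, (hy1 c i hi).symm, (hy1 c j hj).symm⟩
  · intro i
    induction i using WellFoundedLT.induction with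
    | _ i ih =>
      intro hi
      by_cases hn : ∃ j, par i = some j ∧ j ∈ J A
      · obtain ⟨j, hij, hj⟩ := hn
        intro a b hab
        simp only at hab
        rw [hy2 a i j hi hij hj, hy2 b i j hi hij hj] at hab
        exact ih j (hpar i j hij) hj (hinj i hab)
      · push Not at hn
        intro a b hab
        simp only at hab
        rw [hy3 a i hi hn, hy3 b i hi hn] at hab
        exact hab
  · intro i hi a b
    rw [hy1 a i hi, hy1 b i hi]

theorem forest_card_le (hk : 2 ≤ k) {par : Fin n → Option (Fin n)}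
    (hpar : ∀ i j, par i = some j → j < i) (A : Finset (Fin n → Fin k))
    (h : ForestDefined par A) (hm : ¬ HasMatching A) : A.card ≤ (k - 1) ^ n := by
  refine principle' hk (fun A => ForestDefined par A ∧ ¬ HasMatching A) ?_ ?_ A ⟨h, hm⟩
  · rintro A ⟨h1, h2⟩ i a
    exact ⟨h1.filter i a, fun h => h2 (h.mono (Finset.filter_subset _ _))⟩
  · rintro A ⟨h1, h2⟩ hJ
    exact forest_key hpar h1 h2 hJ

end Pool.Agent.R181.LAT
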