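import Pool.Agent.R181.LAT.Lattice
import Pool.Agent.R181.LAT.Forest

/-! Sets without lines in `F_p^n`. -/

namespace Pool.Agent.R181.LAT

variable {n p : ℕ}

/-- `A ⊆ F_p^n` contains no nontrivial `p`-term progression (for `p = 3`: `A` is a cap set). -/
def APFree (A : Finset (Fin n → ZMod p)) : Prop :=
  ¬ ∃ x d : Fin n → ZMod p, d ≠ 0 ∧ ∀ c : ℕ, c < p → x + c • d ∈ A

/-- `A` is closed under the coordinatewise maximum and minimum, where the coordinate `i` is
ordered by `ord i 0 < ord i 1 < …`. -/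
def LatticeClosed (ord : Fin n → Fin p ≃ ZMod p) (A : Finset (Fin n → ZMod p)) : Prop :=
  (∀ x ∈ A, ∀ y ∈ A, (fun i => ord i (max ((ord i).symm (x i)) ((ord i).symm (y i)))) ∈ A) ∧
  ∀ x ∈ A, ∀ y ∈ A, (fun i => ord i (min ((ord i).symm (x i)) ((ord i).symm (y i)))) ∈ A

/-- The order `ord 0 < ord 1 < …` of `F_p` is `a < a + b < a + 2 b < …` for some `b ≠ 0`. -/
def Arithmetic (ord : Fin p ≃ ZMod p) : Prop :=
  ∃ a b : ZMod p, b ≠ 0 ∧ ∀ c : Fin p, ord c = a + (c : ℕ) * b

/-- Relabelling. -/
def relabel (ord : Fin n → Fin p ≃ ZMod p) : (Fin n → Fin p) ≃ (Fin n → ZMod p) :=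
  Equiv.piCongrRight ord

theorem relabel_apply (ord : Fin n → Fin p ≃ ZMod p) (x : Fin n → Fin p) (i : Fin n) :
    relabel ord x i = ord i (x i) := rfl

theorem relabel_symm_apply (ord : Fin n → Fin p ≃ ZMod p) (x : Fin n → ZMod p) (i : Fin n) :
    (relabel ord).symm x i = (ord i).symm (x i) := rfl

theorem lattice_le [Fact p.Prime] (ord : Fin n → Fin p ≃ ZMod p)
    (har : ∀ i, Arithmetic (ord i)) (A : Finset (Fin n → ZMod p)) (hA : APFree A)
    (hcl : LatticeClosed ord A) : A.card ≤ (p - 1) ^ n := by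
  classical
  have hp : 2 ≤ p := (Fact.out : p.Prime).two_le
  set B : Finset (Fin n → Fin p) := A.map (relabel ord).symm.toEmbedding with hB
  have hmem : ∀ x, x ∈ B ↔ relabel ord x ∈ A := by
    intro x
    rw [hB, Finset.mem_map]
    constructor
    · rintro ⟨y, hy, rfl⟩
      simpa using hy
    · intro h
      exact ⟨relabel ord x, h, by simp⟩
  have hcard : B.card = A.card := by rw [hB, Finset.card_map]
  rw [← hcard]
  apply card_le hp
  · constructor
    · intro x hx y hy
      rw [hmem] at hx hy ⊢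
      have := hcl.1 _ hx _ hy
      simp only [relabel_apply, Equiv.symm_apply_apply] at this
      exact this
    · intro x hx y hy
      rw [hmem] at hx hy ⊢
      have := hcl.2 _ hx _ hy
      simp only [relabel_apply, Equiv.symm_apply_apply] at this
      exact this
  · rintro ⟨I, y, ⟨i₀, hi₀⟩, hy, h1, h2⟩
    choose a b hb hab using har
    have hp0 : 0 < p := by omega
    apply hA
    refine ⟨relabel ord (y ⟨0, hp0⟩), fun i => if i ∈ I then b i else 0, ?_, ?_⟩
    · intro h0
      have := congrFun h0 i₀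
      simp only [hi₀, if_true, Pi.zero_apply] at this
      exact hb i₀ this
    · intro c hc
      have hyc := (hmem _).1 (hy ⟨c, hc⟩)
      convert hyc using 1
      ext i
      rw [Pi.add_apply, Pi.smul_apply, relabel_apply, relabel_apply, hab, hab]
      by_cases hi : i ∈ I
      · rw [h1 i hi, h1 i hi]
        simp [hi]
      · rw [h2 i hi ⟨0, hp0⟩ ⟨c, hc⟩]
        simp [hi]

/-- For `p = 3` all orders are arithmetic. -/
theorem arithmetic_three (ord : Fin 3 ≃ ZMod 3) : Arithmetic ord := by
  refine ⟨ord 0, ord 1 - ord 0, ?_, ?_⟩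
  · intro h
    have : ord 1 = ord 0 := sub_eq_zero.1 h
    exact absurd (ord.injective this) (by decide)
  · have h01 : ord 0 ≠ ord 1 := fun h => absurd (ord.injective h) (by decide)
    have h02 : ord 0 ≠ ord 2 := fun h => absurd (ord.injective h) (by decide)
    have h12 : ord 1 ≠ ord 2 := fun h => absurd (ord.injective h) (by decide)
    have key : ∀ u v w : ZMod 3, u ≠ v → u ≠ w → v ≠ w → w = u + 2 * (v - u) := by decide
    intro c
    fin_cases c
    · simp
    · simp
    · simpa using key _ _ _ h01 h02 h12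

/-- Sets in `F_3^n` defined by conditions on the edges of a forest. -/
def ForestDefinedF (par : Fin n → Option (Fin n)) (A : Finset (Fin n → ZMod 3)) : Prop :=
  ∀ y : Fin n → ZMod 3, (∀ i, ∃ x ∈ A, x i = y i) →
    (∀ i j, par i = some j → ∃ x ∈ A, x i = y i ∧ x j = y j) → y ∈ A

theorem forest_le {par : Fin n → Option (Fin n)} (hpar : ∀ i j, par i = some j → j < i)
    (A : Finset (Fin n → ZMod 3)) (h : ForestDefinedF par A) (hA : APFree A) :
    A.card ≤ 2 ^ n := by
  refine forest_card_le (k := 3) (by norm_num) hpar A h ?_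
  rintro ⟨I, y', ⟨i₀, hi₀⟩, hy', h1', h2'⟩
  obtain ⟨y, hy, h1, h2⟩ : ∃ y : Fin 3 → Fin n → ZMod 3, (∀ a, y a ∈ A) ∧
      (∀ i ∈ I, Function.Injective (fun a => y a i)) ∧ ∀ i ∉ I, ∀ a b, y a i = y b i :=
    ⟨y', hy', h1', h2'⟩
  apply hA
  refine ⟨y 0, fun i => y 1 i - y 0 i, ?_, ?_⟩
  · intro h0
    have := congrFun h0 i₀
    have h3 : y 1 i₀ = y 0 i₀ := sub_eq_zero.1 this
    exact absurd (h1 i₀ hi₀ h3) (by decide)
  · have key : ∀ u v w : ZMod 3, u ≠ v → u ≠ w → v ≠ w → w = u + 2 * (v - u) := by decide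
    intro c hc
    have hc' : c = 0 ∨ c = 1 ∨ c = 2 := by omega
    rcases hc' with rfl | rfl | rfl
    · have : y 0 + 0 • (fun i => y 1 i - y 0 i) = y 0 := by
        rw [zero_smul, add_zero]
      rw [this]
      exact hy 0
    · have : y 0 + 1 • (fun i => y 1 i - y 0 i) = y 1 := by
        funext i
        rw [Pi.add_apply, Pi.smul_apply, one_smul]
        ring
      rw [this]
      exact hy 1
    · have : y 0 + 2 • (fun i => y 1 i - y 0 i) = y 2 := by
        funext i
        rw [Pi.add_apply, Pi.smul_apply]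
        by_cases hi : i ∈ I
        · have h01 : y 0 i ≠ y 1 i := fun h => absurd (h1 i hi h) (by decide)
          have h02 : y 0 i ≠ y 2 i := fun h => absurd (h1 i hi h) (by decide)
          have h12 : y 1 i ≠ y 2 i := fun h => absurd (h1 i hi h) (by decide)
          have := key _ _ _ h01 h02 h12
          rw [nsmul_eq_mul]
          exact this.symm
        · have e1 : y 1 i = y 0 i := h2 i hi 1 0
          have e2 : y 2 i = y 0 i := h2 i hi 2 0
          rw [e1, e2]
          simp
      rw [this]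
      exact hy 2

end Pool.Agent.R181.LAT
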