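import Pool.Agent.R181.LAT.Core

/-! Sublattices of `[k]^n` without combinatorial lines. -/

namespace Pool.Agent.R181.LAT

variable {n k : ℕ}

/-- `A` is closed under coordinatewise maximum and minimum. -/
def IsSublattice (A : Finset (Fin n → Fin k)) : Prop :=
  (∀ x ∈ A, ∀ y ∈ A, x ⊔ y ∈ A) ∧ ∀ x ∈ A, ∀ y ∈ A, x ⊓ y ∈ A

/-- `A` contains a combinatorial line: words `y 0, …, y (k - 1)` which are equal to `0, …, k - 1`
in the coordinates of a nonempty set `I` and which agree outside of `I`. -/
def HasLine (A : Finset (Fin n → Fin k)) : Prop :=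
  ∃ (I : Finset (Fin n)) (y : Fin k → Fin n → Fin k), I.Nonempty ∧ (∀ a, y a ∈ A) ∧
    (∀ i ∈ I, ∀ a, y a i = a) ∧ ∀ i ∉ I, ∀ a b, y a i = y b i

theorem HasLine.mono {A B : Finset (Fin n → Fin k)} (hAB : A ⊆ B) (h : HasLine A) :
    HasLine B := by
  obtain ⟨I, y, hI, hy, h1, h2⟩ := h
  exact ⟨I, y, hI, fun a => hAB (hy a), h1, h2⟩

theorem IsSublattice.filter {A : Finset (Fin n → Fin k)} (h : IsSublattice A) (i : Fin n)
    (a : Fin k) : IsSublattice (A.filter (fun x => x i = a)) := by
  constructor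
  · intro x hx y hy
    rw [Finset.mem_filter] at hx hy ⊢
    exact ⟨h.1 x hx.1 y hy.1, by simp [hx.2, hy.2]⟩
  · intro x hx y hy
    rw [Finset.mem_filter] at hx hy ⊢
    exact ⟨h.2 x hx.1 y hy.1, by simp [hx.2, hy.2]⟩

theorem sup'_mem {A : Finset (Fin n → Fin k)} (h : IsSublattice A) {ι : Type*}
    (s : Finset ι) (hs : s.Nonempty) (f : ι → Fin n → Fin k) (hf : ∀ i ∈ s, f i ∈ A) :
    s.sup' hs f ∈ A :=
  Finset.sup'_induction hs f (p := fun x => x ∈ A) (fun x hx y hy => h.1 x hx y hy) hf

theorem inf'_mem {A : Finset (Fin n → Fin k)} (h : IsSublattice A) {ι : Type*}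
    (s : Finset ι) (hs : s.Nonempty) (f : ι → Fin n → Fin k) (hf : ∀ i ∈ s, f i ∈ A) :
    s.inf' hs f ∈ A :=
  Finset.inf'_induction hs f (p := fun x => x ∈ A) (fun x hx y hy => h.2 x hx y hy) hf

/-- If `x i ≥ a` never forces `x j > a`, the lattice contains a word with all non-constant
coordinates equal to `a`. -/
theorem exists_diag {A : Finset (Fin n → Fin k)} (h : IsSublattice A) (hJ : (J A).Nonempty)
    (a : Fin k) (hx : ∀ i ∈ J A, ∀ j ∈ J A, ∃ x ∈ A, a ≤ x i ∧ x j ≤ a) :
    ∃ y ∈ A, ∀ i ∈ J A, y i = a := by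
  have hx' : ∀ i j, ∃ x, i ∈ J A → j ∈ J A → x ∈ A ∧ a ≤ x i ∧ x j ≤ a := by
    intro i j
    by_cases hi : i ∈ J A
    · by_cases hj : j ∈ J A
      · obtain ⟨x, h1, h2, h3⟩ := hx i hi j hj
        exact ⟨x, fun _ _ => ⟨h1, h2, h3⟩⟩
      · exact ⟨fun _ => a, fun _ h' => absurd h' hj⟩
    · exact ⟨fun _ => a, fun h' => absurd h' hi⟩
  choose X hX using hx'
  refine ⟨(J A).sup' hJ (fun i => (J A).inf' hJ (fun j => X i j)), ?_, ?_⟩
  · refine sup'_mem h _ hJ _ (fun i hi => ?_)
    exact inf'_mem h _ hJ _ (fun j hj => (hX i j hi hj).1)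
  · intro l hl
    apply le_antisymm
    · rw [Finset.sup'_apply]
      refine Finset.sup'_le hJ _ (fun i hi => ?_)
      rw [Finset.inf'_apply]
      exact (Finset.inf'_le _ hl).trans (hX i l hi hl).2.2
    · rw [Finset.sup'_apply]
      refine le_trans ?_ (Finset.le_sup' (fun i => ((J A).inf' hJ (fun j => X i j)) l) hl)
      rw [Finset.inf'_apply]
      refine Finset.le_inf' hJ _ (fun j hj => ?_)
      exact (hX l j hl hj).2.1

theorem card_le (hk : 2 ≤ k) (A : Finset (Fin n → Fin k)) (hA : IsSublattice A)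
    (hL : ¬ HasLine A) : A.card ≤ (k - 1) ^ n := by
  refine principle' hk (fun A => IsSublattice A ∧ ¬ HasLine A) ?_ ?_ A ⟨hA, hL⟩
  · rintro A ⟨h1, h2⟩ i a
    exact ⟨h1.filter i a, fun h => h2 (h.mono (Finset.filter_subset _ _))⟩
  · rintro A ⟨hA, hL⟩ hJ
    by_cases hall : ∀ a : Fin k, ∀ i ∈ J A, ∀ j ∈ J A, ∃ x ∈ A, a ≤ x i ∧ x j ≤ a
    · exfalso
      apply hL
      choose y hy hyi using fun a => exists_diag hA hJ a (hall a)
      exact ⟨J A, y, hJ, hy, fun i hi a => hyi a i hi,
        fun i hi a b => eq_of_not_mem_J hi (hy a) (hy b)⟩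
    · push Not at hall
      obtain ⟨a, i, hi, j, hj, hij⟩ := hall
      -- `a ≤ x i` forces `a < x j`
      refine ⟨(Finset.univ.filter (fun c => c < a)).image (fun c => (i, c)) ∪
        (Finset.univ.filter (fun c => a < c)).image (fun c => (j, c)), ?_, ?_, ?_⟩
      · refine (Finset.card_union_le _ _).trans ?_
        refine (Nat.add_le_add Finset.card_image_le Finset.card_image_le).trans ?_
        rw [← Finset.card_union_of_disjoint]
        · have hsub : Finset.univ.filter (fun c => c < a) ∪ Finset.univ.filter (fun c => a < c) ⊆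
              Finset.univ.erase a := by
            intro c hc
            simp only [Finset.mem_union, Finset.mem_filter, Finset.mem_univ, true_and] at hc
            simp only [Finset.mem_erase, Finset.mem_univ, and_true]
            rcases hc with hc | hc
            · exact hc.ne
            · exact hc.ne'
          refine (Finset.card_le_card hsub).trans ?_
          rw [Finset.card_erase_of_mem (Finset.mem_univ _)]
          simp
        · rw [Finset.disjoint_left]
          intro c hc hc'
          simp only [Finset.mem_filter, Finset.mem_univ, true_and] at hc hc'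
          exact lt_asymm hc hc'
      · intro t ht
        simp only [Finset.mem_union, Finset.mem_image] at ht
        rcases ht with ⟨c, -, rfl⟩ | ⟨c, -, rfl⟩
        · exact hi
        · exact hj
      · intro x hx
        by_cases hxa : x i < a
        · exact ⟨(i, x i), by simp [hxa], rfl⟩
        · have := hij x hx (not_lt.1 hxa)
          exact ⟨(j, x j), by simp [this], rfl⟩

end Pool.Agent.R181.LAT
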