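import Pool.Agent.R181.LAT.Fp

/-! Examples. -/

namespace Pool.Agent.R181.LAT

variable {n k p : ℕ}

theorem sharp_line (hk : 2 ≤ k) : ∃ A : Finset (Fin n → Fin k),
    IsSublattice A ∧ ¬ HasLine A ∧ A.card = (k - 1) ^ n := by
  classical
  let last : Fin k := ⟨k - 1, by omega⟩
  have hlast : ∀ x : Fin k, x ≤ last := fun x => by
    rw [Fin.le_def]; simp only [last]; omega
  refine ⟨Fintype.piFinset (fun _ => Finset.univ.erase last), ⟨?_, ?_⟩, ?_, ?_⟩
  · intro x hx y hy
    rw [Fintype.mem_piFinset] at hx hy ⊢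
    intro i
    have h1 := hx i
    have h2 := hy i
    simp only [Finset.mem_erase, Finset.mem_univ, and_true] at h1 h2 ⊢
    have h1' := lt_of_le_of_ne (hlast _) h1
    have h2' := lt_of_le_of_ne (hlast _) h2
    exact (sup_lt_iff.2 ⟨h1', h2'⟩).ne
  · intro x hx y hy
    rw [Fintype.mem_piFinset] at hx hy ⊢
    intro i
    have h1 := hx i
    simp only [Finset.mem_erase, Finset.mem_univ, and_true] at h1 ⊢
    have h1' := lt_of_le_of_ne (hlast _) h1
    exact (lt_of_le_of_lt (inf_le_left : (x ⊓ y) i ≤ x i) h1').ne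
  · rintro ⟨I, y, ⟨i₀, hi₀⟩, hy, h1, -⟩
    have := hy last
    rw [Fintype.mem_piFinset] at this
    have h2 := this i₀
    rw [h1 i₀ hi₀] at h2
    simp at h2
  · rw [Fintype.card_piFinset]
    simp

theorem sharp_ap [Fact p.Prime] (ord : Fin n → Fin p ≃ ZMod p) :
    ∃ A : Finset (Fin n → ZMod p), LatticeClosed ord A ∧ APFree A ∧ A.card = (p - 1) ^ n := by
  classical
  have hp : 2 ≤ p := (Fact.out : p.Prime).two_le
  let last : Fin p := ⟨p - 1, by omega⟩
  have hlast : ∀ x : Fin p, x ≤ last := fun x => by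
    rw [Fin.le_def]; simp only [last]; omega
  have hmem : ∀ x : Fin n → ZMod p,
      x ∈ Fintype.piFinset (fun i => Finset.univ.erase (ord i last)) ↔
        ∀ i, (ord i).symm (x i) < last := by
    intro x
    rw [Fintype.mem_piFinset]
    refine forall_congr' (fun i => ?_)
    simp only [Finset.mem_erase, Finset.mem_univ, and_true]
    constructor
    · intro h
      refine lt_of_le_of_ne (hlast _) (fun h' => h ?_)
      rw [← h', Equiv.apply_symm_apply]
    · intro h h'
      rw [h', Equiv.symm_apply_apply] at h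
      exact lt_irrefl _ h
  refine ⟨Fintype.piFinset (fun i => Finset.univ.erase (ord i last)), ⟨?_, ?_⟩, ?_, ?_⟩
  · intro x hx y hy
    rw [hmem] at hx hy ⊢
    intro i
    rw [Equiv.symm_apply_apply]
    exact max_lt (hx i) (hy i)
  · intro x hx y hy
    rw [hmem] at hx hy ⊢
    intro i
    rw [Equiv.symm_apply_apply]
    exact (min_le_left _ _).trans_lt (hx i)
  · rintro ⟨x, d, hd, hxd⟩
    obtain ⟨i, hi⟩ : ∃ i, d i ≠ 0 := by
      by_contra hcon
      push Not at hcon
      exact hd (funext hcon)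
    -- solve `x i + c * d i = ord i last`
    set c : ZMod p := (ord i last - x i) / d i with hc
    have h1 := hxd c.val (ZMod.val_lt c)
    rw [Fintype.mem_piFinset] at h1
    have h2 := h1 i
    simp only [Finset.mem_erase, Finset.mem_univ, and_true] at h2
    apply h2
    rw [Pi.add_apply, Pi.smul_apply, nsmul_eq_mul, ZMod.natCast_zmod_val, hc]
    field_simp
    ring
  · rw [Fintype.card_piFinset]
    simp

theorem sharp_forest (par : Fin n → Option (Fin n)) :
    ∃ A : Finset (Fin n → ZMod 3), ForestDefinedF par A ∧ APFree A ∧ A.card = 2 ^ n := by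
  classical
  haveI : Fact (Nat.Prime 3) := ⟨by norm_num⟩
  refine ⟨Fintype.piFinset (fun _ => Finset.univ.erase 2), ?_, ?_, ?_⟩
  · intro y h1 _
    rw [Fintype.mem_piFinset]
    intro i
    obtain ⟨x, hx, hxi⟩ := h1 i
    rw [Fintype.mem_piFinset] at hx
    rw [← hxi]
    exact hx i
  · rintro ⟨x, d, hd, hxd⟩
    obtain ⟨i, hi⟩ : ∃ i, d i ≠ 0 := by
      by_contra hcon
      push Not at hcon
      exact hd (funext hcon)
    set c : ZMod 3 := (2 - x i) / d i with hc
    have h1 := hxd c.val (ZMod.val_lt c)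
    rw [Fintype.mem_piFinset] at h1
    have h2 := h1 i
    simp only [Finset.mem_erase, Finset.mem_univ, and_true] at h2
    apply h2
    rw [Pi.add_apply, Pi.smul_apply, nsmul_eq_mul, ZMod.natCast_zmod_val, hc]
    field_simp
    ring
  · rw [Fintype.card_piFinset]
    simp

/-- A set which is defined by conditions on pairs of coordinates. -/
def PairDefined (A : Finset (Fin n → ZMod 3)) : Prop :=
  ∀ y : Fin n → ZMod 3, (∀ i j, ∃ x ∈ A, x i = y i ∧ x j = y j) → y ∈ A

/-- A cap set with 17 points in `F_3^4`. -/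
def Ex : Finset (Fin 4 → ZMod 3) :=
  {![0,0,0,1], ![0,1,1,1], ![0,1,2,2], ![0,2,0,1], ![0,2,0,2], ![0,2,2,2], ![1,1,2,0],
   ![1,2,0,0], ![1,2,0,1], ![1,2,2,0], ![2,0,0,0], ![2,0,0,1], ![2,0,2,0], ![2,1,1,0],
   ![2,1,1,1], ![2,1,2,0], ![2,1,2,2]}

theorem ex_card : Ex.card = 17 := by decide +kernel

theorem ex_pair : PairDefined Ex := by
  unfold PairDefined
  decide +kernel

theorem ex_cap : ∀ x ∈ Ex, ∀ y ∈ Ex, x ≠ y → (-x - y) ∉ Ex := by decide +kernel

theorem ex_free : APFree Ex := by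
  rintro ⟨x, d, hd, hxd⟩
  have h0 := hxd 0 (by norm_num)
  have h1 := hxd 1 (by norm_num)
  have h2 := hxd 2 (by norm_num)
  rw [zero_smul, add_zero] at h0
  rw [one_smul] at h1
  refine ex_cap x h0 (x + d) h1 (fun h => hd ?_) ?_
  · have : x + d = x + 0 := by rw [add_zero]; exact h.symm
    exact add_left_cancel this
  · have h3 : (-x - (x + d) : Fin 4 → ZMod 3) = x + 2 • d := by
      have key : ∀ u v : ZMod 3, -u - (u + v) = u + 2 * v := by decide
      ext i
      rw [Pi.sub_apply, Pi.neg_apply, Pi.add_apply, Pi.add_apply, Pi.smul_apply, nsmul_eq_mul]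
      exact key _ _
    rw [h3]
    exact h2

end Pool.Agent.R181.LAT
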